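import Pool.Agent.Lib.MP_ab8afa_al.Norm

/-!
Gleason's question: sequences with (C1)-(C3) and a partition of `ℤ` into two nonempty sets such that
one of the three series always diverges. All sequences are indexed by `n ≥ 1` (the value at `0` of a
function on `ℕ` plays no role).
-/

set_option autoImplicit false
open Filter Topology

namespace Pool.Agent.Results.MP_ab8afa_al.SplitIntegers

open Pool.Agent.Lib.MP_ab8afa_al

/-- The conditions (C1), (C2), (C3) on `p_1, p_2, …` and `a_1, a_2, …`. -/
structure Conditions (p : ℕ → ℕ) (a : ℕ → ℝ) : Prop where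
  pos : ∀ n, 1 ≤ n → 0 < p n
  one : a 1 = 1
  anti : ∀ n, 1 ≤ n → a (n + 1) < a n
  lim : Tendsto a atTop (𝓝 0)
  growth : ∀ n, 1 ≤ n → 1 ≤ a n * ((p (n + 1) : ℝ) / (p n : ℝ) - 1)
  gcd : ∀ m : ℕ, ∃ s : Finset ℕ, (∀ n ∈ s, m < n) ∧ s.gcd p = 1

/-- `N(x)`: the infimum of `∑ |k_i| a_i` over all representations `∑ k_i p_i = x`, where `i` runs
over a finite set `s` of indices `≥ 1`. -/
noncomputable def gleasonNorm (p : ℕ → ℕ) (a : ℕ → ℝ) (x : ℤ) : ℝ :=
  sInf {r : ℝ | ∃ (s : Finset ℕ) (k : ℕ → ℤ), (∀ i ∈ s, 1 ≤ i) ∧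
    ∑ i ∈ s, k i * (p i : ℤ) = x ∧ r = ∑ i ∈ s, |(k i : ℝ)| * a i}

/-- The series `f 1 + f 2 + ⋯` converges. -/
def Converges (f : ℕ → ℝ) : Prop :=
  ∃ l : ℝ, Tendsto (fun n => ∑ i ∈ Finset.Icc 1 n, f i) atTop (𝓝 l)

theorem norm_eq (z : ℤ) : gleasonNorm (fun n => pp (n - 1)) (fun n => aa (n - 1)) z
    = NN z := by
  unfold gleasonNorm NN
  congr 1
  ext r
  constructor
  · rintro ⟨s, k, hs, hz, rfl⟩
    have hinj : Set.InjOn (fun i : ℕ => i - 1) s := by
      intro i hi j hj hij
      have h1 := hs i hi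
      have h2 := hs j hj
      simp only at hij
      omega
    let c : ℕ →₀ ℤ := Finsupp.onFinset (s.image fun i => i - 1)
      (fun i => if i + 1 ∈ s then k (i + 1) else 0) (by
        intro i hi
        by_cases h : i + 1 ∈ s
        · exact Finset.mem_image.2 ⟨i + 1, h, rfl⟩
        · simp [h] at hi)
    have hsup : c.support ⊆ s.image fun i => i - 1 := Finsupp.support_onFinset_subset
    have hc : ∀ i ∈ s, c (i - 1) = k i := by
      intro i hi
      have h1 := hs i hi
      change (if i - 1 + 1 ∈ s then k (i - 1 + 1) else 0) = k i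
      rw [Nat.sub_add_cancel h1, if_pos hi]
    refine ⟨c, ?_, ?_⟩
    · rw [val_eq c _ hsup, Finset.sum_image hinj, ← hz]
      exact Finset.sum_congr rfl fun i hi => by rw [hc i hi]
    · rw [cost_eq c _ hsup, Finset.sum_image hinj]
      exact Finset.sum_congr rfl fun i hi => by rw [hc i hi]
  · rintro ⟨c, hz, rfl⟩
    refine ⟨c.support.image (fun i => i + 1), fun i => c (i - 1), ?_, ?_, ?_⟩
    · intro i hi
      obtain ⟨j, -, rfl⟩ := Finset.mem_image.1 hi
      omega
    · rw [Finset.sum_image (fun i _ j _ h => Nat.succ_injective h), ← hz,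
        val_eq c _ subset_rfl]
      exact Finset.sum_congr rfl fun i _ => by simp
    · rw [Finset.sum_image (fun i _ j _ h => Nat.succ_injective h), cost_eq c _ subset_rfl]
      exact Finset.sum_congr rfl fun i _ => by simp

/-- There are sequences with (C1)-(C3) and a partition `ℤ = X ⊔ Y` into two nonempty sets such that
for all sequences `x_i` in `X` and `y_i` in `Y`: if `∑ N(x_i - x_{i+1})` converges, then the numbers
`N(x_i - y_i)` are bounded away from zero. In particular the three series never all converge. -/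
theorem result : ∃ (p : ℕ → ℕ) (a : ℕ → ℝ), Conditions p a ∧
    ∃ X Y : Set ℤ, X.Nonempty ∧ Y.Nonempty ∧ Disjoint X Y ∧ X ∪ Y = Set.univ ∧
      ∀ x y : ℕ → ℤ, (∀ i, 1 ≤ i → x i ∈ X) → (∀ i, 1 ≤ i → y i ∈ Y) →
        (Converges (fun i => gleasonNorm p a (x i - x (i + 1))) →
          ∃ ε : ℝ, 0 < ε ∧ ∀ i, 1 ≤ i → ε ≤ gleasonNorm p a (x i - y i)) ∧
        ¬ (Converges (fun i => gleasonNorm p a (x i - x (i + 1))) ∧
          Converges (fun i => gleasonNorm p a (y i - y (i + 1))) ∧
          Converges (fun i => gleasonNorm p a (x i - y i))) := by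
  refine ⟨fun n => pp (n - 1), fun n => aa (n - 1), ?_, {x | FF x = 0},
    {x | FF x ≠ 0}, ⟨0, FF_zero⟩, ⟨1, FF_one⟩, ?_, ?_, ?_⟩
  · refine ⟨fun n _ => pp_pos _, by simp [aa_one], ?_, ?_, ?_, ?_⟩
    · intro n hn
      exact aa_anti (show n - 1 < n + 1 - 1 by omega)
    · refine (tendsto_add_atTop_iff_nat 1).1 ?_
      simpa using aa_tendsto
    · intro n hn
      have := pp_growth (n - 1)
      rw [Nat.sub_add_cancel hn] at this
      simpa using this
    · intro m
      refine ⟨{m + 1, m + 2}, ?_, ?_⟩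
      · intro n hn
        simp only [Finset.mem_insert, Finset.mem_singleton] at hn
        omega
      · rw [Finset.gcd_insert, Finset.gcd_singleton]
        simp only [normalize_eq]
        change Nat.gcd (pp m) (pp (m + 1)) = 1
        rw [pp_succ m]
        simp
  · exact Set.disjoint_left.2 fun x h1 h2 => h2 h1
  · ext x
    exact iff_of_true (em (FF x = 0)) trivial
  · intro x y hx hy
    simp only [norm_eq]
    have key : Converges (fun i => NN (x i - x (i + 1))) →
        ∃ ε : ℝ, 0 < ε ∧ ∀ i, 1 ≤ i → ε ≤ NN (x i - y i) := by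
      rintro ⟨l, hl⟩
      have hmono : Monotone (fun n => ∑ i ∈ Finset.Icc 1 n, NN (x i - x (i + 1))) := by
        intro m n hmn
        exact Finset.sum_le_sum_of_subset_of_nonneg (Finset.Icc_subset_Icc le_rfl hmn)
          (fun _ _ _ => NN_nonneg _)
      have hle := fun n => hmono.ge_of_tendsto hl n
      have h1 : ∀ i, 1 ≤ i → NN (x i) ≤ NN (x 1) + ∑ j ∈ Finset.Icc 1 (i - 1),
          NN (x j - x (j + 1)) := by
        intro i hi
        induction i, hi using Nat.le_induction with
        | base => simp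
        | succ i hi ih =>
          have h2 := NN_sub_le (x i) (x i - x (i + 1))
          rw [sub_sub_cancel] at h2
          have h3 : ∑ j ∈ Finset.Icc 1 (i + 1 - 1), NN (x j - x (j + 1)) =
              ∑ j ∈ Finset.Icc 1 (i - 1), NN (x j - x (j + 1)) + NN (x i - x (i + 1)) := by
            obtain ⟨k, rfl⟩ : ∃ k, i = k + 1 := ⟨i - 1, by omega⟩
            rw [Nat.add_sub_cancel, Nat.add_sub_cancel, Finset.sum_Icc_succ_top (by omega)]
          rw [h3]
          linarith
      obtain ⟨m0, hm0⟩ := exists_nat_gt (NN (x 1) + l + 2)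
      refine ⟨aa m0, aa_pos _, fun i hi => ?_⟩
      by_contra hlt
      push Not at hlt
      have hB : NN (x i) ≤ NN (x 1) + l := (h1 i hi).trans (by
        have := hle (i - 1)
        linarith)
      have h4 := FF_eq hm0 hB hlt
      exact hy i hi (h4.symm.trans (hx i hi))
    refine ⟨key, ?_⟩
    rintro ⟨h1, -, l, hl⟩
    obtain ⟨ε, hε, h⟩ := key h1
    have h2 : Tendsto (fun n => NN (x (n + 1) - y (n + 1))) atTop (𝓝 0) := by
      have h3 := (hl.comp (tendsto_add_atTop_nat 1)).sub hl
      rw [sub_self] at h3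
      refine h3.congr fun n => ?_
      simp only [Function.comp]
      rw [Finset.sum_Icc_succ_top (by omega)]
      ring
    obtain ⟨n, hn⟩ := (h2.eventually (gt_mem_nhds hε)).exists
    exact absurd (h (n + 1) (by omega)) (not_le.2 hn)

end Pool.Agent.Results.MP_ab8afa_al.SplitIntegers
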